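import Pool.Agent.Helper21.MT7.Stmts
import Pool.Agent.Helper22.MU.INR
import Pool.Agent.Helper84.MU.CYC
import Pool.Agent.Helper84.MU.IDX
import Pool.Agent.Helper3.MU.TRC

/-!
# MT7, module CYI: the cyclotomic character has infinite order on the inertia groups over `l`
-/

set_option autoImplicit false
set_option maxHeartbeats 800000

open NumberField MU

namespace MT

theorem cyi_congPow_pow {Ω k : Type} [Field Ω] [Field k] [Algebra k Ω]
    (𝔔 : Ideal (integralClosure ℤ Ω)) (σ : Ω ≃ₐ[k] Ω) (h : CongPow 𝔔 1 σ) (m : ℕ) :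
    CongPow 𝔔 1 (σ ^ m : Ω ≃ₐ[k] Ω) := by
  induction m with
  | zero =>
    intro x y hxy
    rw [pow_zero] at hxy
    have h1 : y = x := Subtype.ext hxy
    rw [h1, pow_one, sub_self]
    exact 𝔔.zero_mem
  | succ m ih =>
    intro x y hxy
    have h1 : (y : Ω) = (σ ^ m : Ω ≃ₐ[k] Ω) (σ (x : Ω)) := by
      rw [hxy, pow_succ]
      rfl
    have h2 : IsIntegral ℤ (σ (x : Ω)) := x.2.map (σ.toAlgHom.restrictScalars ℤ)
    have h3 := ih ⟨σ (x : Ω), h2⟩ y h1
    have h4 := h x ⟨σ (x : Ω), h2⟩ rfl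
    rw [pow_one] at h3 h4 ⊢
    have h5 := 𝔔.add_mem h3 h4
    rw [sub_add_sub_cancel] at h5
    exact h5

theorem cyi_cyc_eq (F : Type) [Field F] [NumberField F] (l : ℕ) [Fact l.Prime] (τ : Gal F)
    (τ' : GalQ F) (h : ∀ x : AlgebraicClosure F, τ' x = τ x) : cyc l F τ = cyc l ℚ τ' := by
  unfold cyc
  rw [MonoidHom.comp_apply, MonoidHom.comp_apply]
  refine DFunLike.congr_arg _ ?_
  apply RingEquiv.ext
  intro x
  exact (h x).symm

theorem st_CYI : ST_CYI := by
  intro F _ _ l _ H hH 𝔓 h𝔓 D hD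
  by_contra hcon
  push Not at hcon
  have hl : l.Prime := Fact.out
  have hG := fre_isGalois F
  obtain ⟨H₀, e, he1, he2, he3, he4, -⟩ := st_IDX F
  -- the image of `H` in the absolute Galois group of `ℚ`
  let H' : Subgroup (GalQ F) := (H.map e.toMonoidHom).map H₀.subtype
  have hH'mem : ∀ g : GalQ F, g ∈ H' ↔ ∃ τ ∈ H, ((e τ : H₀) : GalQ F) = g := by
    intro g
    constructor
    · rintro ⟨y, ⟨τ, hτ, rfl⟩, rfl⟩
      exact ⟨τ, hτ, rfl⟩
    · rintro ⟨τ, hτ, rfl⟩
      exact ⟨e τ, ⟨τ, hτ, rfl⟩, rfl⟩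
  have hH'o : IsOpen (H' : Set (GalQ F)) := by
    have h1 : IsOpen {y : H₀ | e.symm y ∈ H} := hH.preimage he4
    have h2 := he2.isOpenMap_subtype_val _ h1
    refine Eq.mp (congrArg IsOpen ?_) h2
    ext g
    constructor
    · rintro ⟨y, hy, rfl⟩
      exact (hH'mem _).2 ⟨e.symm y, hy, by rw [MulEquiv.apply_symm_apply]⟩
    · intro hg
      obtain ⟨τ, hτ, rfl⟩ := (hH'mem _).1 hg
      refine ⟨e τ, ?_, rfl⟩
      change e.symm (e τ) ∈ H
      rw [MulEquiv.symm_apply_apply]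
      exact hτ
  have hnhds : (H' : Set (GalQ F)) ∈ nhds (1 : GalQ F) := hH'o.mem_nhds H'.one_mem
  obtain ⟨E, hE, hEn, hEs⟩ := (krullTopology_mem_nhds_one_iff_of_normal ℚ _ _).1 hnhds
  have hEgal : IsGalois ℚ E := @IsGalois.mk _ _ _ _ _ inferInstance hEn
  have hUn : E.fixingSubgroup.Normal := (InfiniteGalois.normal_iff_isGalois E).2 hEgal
  have hfi : E.fixingSubgroup.FiniteIndex := by
    have h1 : Finite (GalQ F ⧸ E.fixingSubgroup) :=
      Subgroup.quotient_finite_of_isOpen _ E.fixingSubgroup_isOpen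
    exact Subgroup.finiteIndex_of_finite_quotient
  set k : ℕ := E.fixingSubgroup.index with hk
  have hk0 : k ≠ 0 := hfi.index_ne_zero
  -- the kernel of the power of the cyclotomic character
  let χ : GalQ F →* ℤ_[l]ˣ := (powMonoidHom (k * D)).comp (cyc l ℚ)
  have hχc : Continuous χ := by
    have h1 : Continuous (fun s : GalQ F => cyc l ℚ s) := cyc_continuous l
    exact h1.pow (k * D)
  have hker : χ.ker = ⊤ := by
    apply st_INR F χ.ker (MonoidHom.normal_ker χ)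
    · have h1 : (χ.ker : Set (GalQ F)) = χ ⁻¹' {1} := by
        ext g
        simp [MonoidHom.mem_ker]
      rw [h1]
      exact isClosed_singleton.preimage hχc
    · intro p hp 𝔔 h𝔔 σ hσ
      rw [MonoidHom.mem_ker]
      change (cyc l ℚ σ) ^ (k * D) = 1
      by_cases hpl : p = l
      · subst hpl
        obtain ⟨-, htr⟩ := st_FRE F p hp
        obtain ⟨g, hg⟩ := htr 𝔔 𝔓 h𝔔 h𝔓
        have h1 : σ ^ k ∈ E.fixingSubgroup := Subgroup.pow_index_mem _ σ
        have h2 : g * σ ^ k * g⁻¹ ∈ E.fixingSubgroup := hUn.conj_mem _ h1 g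
        obtain ⟨τ, hτ, hτe⟩ := (hH'mem _).1 (hEs h2)
        have h3 : CongPow 𝔓 1 τ := by
          intro x y hxy
          have hx : IsIntegral ℤ (g⁻¹ (x : AlgebraicClosure F)) :=
            x.2.map ((g⁻¹ : GalQ F).toAlgHom.restrictScalars ℤ)
          have hy : IsIntegral ℤ (g⁻¹ (y : AlgebraicClosure F)) :=
            y.2.map ((g⁻¹ : GalQ F).toAlgHom.restrictScalars ℤ)
          have h4 : (g⁻¹ (y : AlgebraicClosure F)) =
              (σ ^ k : GalQ F) (g⁻¹ (x : AlgebraicClosure F)) := by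
            rw [hxy, ← he1 τ, hτe]
            change (g⁻¹ * (g * σ ^ k * g⁻¹)) (x : AlgebraicClosure F) = (σ ^ k * g⁻¹) _
            congr 1
            group
          have h5 := cyi_congPow_pow 𝔔 σ hσ k ⟨_, hx⟩ ⟨_, hy⟩ h4
          rw [pow_one] at h5 ⊢
          refine (hg _ _ ?_).1 h5
          change (y : AlgebraicClosure F) - (x : AlgebraicClosure F) =
            g (g⁻¹ (y : AlgebraicClosure F) - g⁻¹ (x : AlgebraicClosure F))
          rw [map_sub]
          change _ = (g * g⁻¹) (y : AlgebraicClosure F) - (g * g⁻¹) (x : AlgebraicClosure F)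
          rw [mul_inv_cancel]
          rfl
        have h4 := hcon τ hτ h3
        have h5 : cyc p F τ = (cyc p ℚ σ) ^ k := by
          rw [cyi_cyc_eq F p τ (g * σ ^ k * g⁻¹) (fun x => by rw [← hτe]; exact he1 τ x)]
          rw [map_mul, map_mul, map_inv, map_pow, mul_comm, inv_mul_cancel_left]
        rw [h5, ← pow_mul] at h4
        exact h4
      · have h1 := st_CYC F ℚ l p hp hpl 𝔔 h𝔔 0 σ (by rw [pow_zero]; exact hσ)
        have h2 : cyc l ℚ σ = 1 := by
          apply Units.ext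
          rw [h1, pow_zero]
          rfl
        rw [h2, one_pow]
  -- a Frobenius element
  obtain ⟨p, hpl, hp⟩ := Nat.exists_infinite_primes (l + 1)
  obtain ⟨⟨𝔔, h𝔔, φ, hφ⟩, -⟩ := st_FRE F p hp
  have h1 := st_CYC F ℚ l p hp (by omega) 𝔔 h𝔔 1 φ (by rw [pow_one]; exact hφ)
  have h2 : φ ∈ χ.ker := by rw [hker]; trivial
  rw [MonoidHom.mem_ker] at h2
  change (cyc l ℚ φ) ^ (k * D) = 1 at h2
  have h3 : (((cyc l ℚ φ) ^ (k * D) : ℤ_[l]ˣ) : ℤ_[l]) = 1 := by rw [h2]; rfl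
  rw [Units.val_pow_eq_pow_val, h1, pow_one] at h3
  have h4 : p ^ (k * D) = 1 := by exact_mod_cast h3
  have h5 : k * D ≠ 0 := Nat.mul_ne_zero hk0 (by omega)
  have h6 := (Nat.pow_eq_one.1 h4).resolve_right h5
  exact hp.one_lt.ne' h6

end MT
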